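import Pool.Agent.Y191.LcCan

/-!
Definitions for the hand-in `MP_badc2d_ag.MovingArrangementsOutside`.
-/

set_option autoImplicit false

open FF Pool.Agent.W602.GT Pool.Agent.Y172 Pool.Agent.Y191

namespace Pool.Agent.X327.MA

section

variable {K : Type} [Field K] [Algebra ℂ K] {N : ℕ}

/-- `(X, Δ)` is a projective pair of dimension `n`: `X` is normal, with generic point `y`, and `Δ` is
an effective `ℚ`-divisor. -/
def IsPair (y : Fin (N + 1) → K) (n : ℕ) (Δ : Place ℂ K → ℚ) : Prop :=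
  NormalModel y ∧ Algebra.trdeg ℂ K = n ∧ Effective y Δ

/-- The `b j` are the coordinates of a rational map whose image has dimension `p` and is not
contained in one of the hyperplanes `ℓ i = 0`. -/
def IsMap {v q : ℕ} (ℓ : Fin q → Fin (v + 1) → ℂ) (b : Fin (v + 1) → K) (p : ℕ) : Prop :=
  (∀ i, lf (ℓ i) b ≠ 0) ∧ (∃ j, b j ≠ 0) ∧ Algebra.trdeg ℂ (RF ℂ b) = p

/-- `K_X + D` is pseudo-effective, tested with the effective divisor `A`: the divisor
`m (K_X + D) + A` has a section `≠ 0` for arbitrarily large `m`. -/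
def PseudoEffective (y : Fin (N + 1) → K) (n : ℕ) (D A : Place ℂ K → ℚ) : Prop :=
  ∀ m₁ : ℕ, ∃ m : ℕ, m₁ ≤ m ∧ ∃ s, IsSection y n m (m • D + A) s ∧ s ≠ 0

/-- The prime divisor `P` is negligible: it is in the support of `Γ`, or in the base locus of
`m (K_X + Δ + η A)` for all `m ≥ 1` and all small `η ≥ 0`. -/
def Negligible (y : Fin (N + 1) → K) (n : ℕ) (Δ Γ A : Place ℂ K → ℚ) (P : Place ℂ K) : Prop :=
  Γ P ≠ 0 ∨ ∃ η₀ : ℚ, 0 < η₀ ∧ ∀ (m : ℕ) (η : ℚ), 1 ≤ m → 0 ≤ η → η ≤ η₀ →
    ∀ ω, IsSection y n m (m • (Δ + η • A)) ω → ω ≠ 0 → ¬ OrdEq P ω (-(m * (Δ P + η * A P)))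

/-- The `ℚ`-divisor `Δ'` is equal to `Δ` outside of the support of `Γ`, and larger than `Δ - Γ` along
all components of `Γ`. -/
def Above (y : Fin (N + 1) → K) (Δ Γ Δ' : Place ℂ K → ℚ) : Prop :=
  ∀ P, IsPrimeDivisor y P → (Γ P = 0 → Δ' P = Δ P) ∧ (Γ P ≠ 0 → Δ P - Γ P < Δ' P)

/-- There is a finite extension `K'` of `K`, and the `u ⟨j, k⟩` are the affine coordinates of a
generically finite map, over the variety with the function field `L`, of a variety with the function
field `K'` to a product of projective spaces of dimensions `r j ≥ 1`; `A j i` are the coefficients of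
hyperplanes, algebraic over `L`, with weights `w j i` in `[0, 1]` such that the arrangement is log
canonical (`LcArr`). The pull back of `K_X + Δ` to `K'` is compared with the pull back of the
canonical divisor of the relative product plus `∑ w j i (A j i = 0)` at the places over the prime
divisors of `X` in `S` which are trivial on `L` (`LcHor`) and at the places over the prime divisors of
the product (`Cor`). -/
def Fibres (y : Fin (N + 1) → K) (n : ℕ) (Δ : Place ℂ K → ℚ) (S : Set (Place ℂ K))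
    (L : IntermediateField ℂ K) {c : ℕ} (r s : Fin c → ℕ) (w : ∀ j, Fin (s j) → ℚ) : Prop :=
  (∀ j, 1 ≤ r j ∧ ∀ i, 0 ≤ w j i ∧ w j i ≤ 1) ∧
  ∃ (K' : Type) (_ : Field K') (_ : Algebra ℂ K') (_ : Algebra K K') (_ : IsScalarTower ℂ K K')
    (_ : FiniteDimensional K K') (A : ∀ j, Fin (s j) → Fin (r j + 1) → K')
    (u : (Σ j, Fin (r j)) → K'),
    LcArr (upF K' L) A w ∧ IsTranscendenceBasis (upF K' L) u ∧
    LcHor L A u w S (fun P => (Δ P : ℝ)) ∧ Cor y n Δ (upF K' L) A u w

/-- the sum of the dimensions `r j` for which the sum of the weights is greater than `r j + 1` -/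
def big {c : ℕ} (r s : Fin c → ℕ) (w : ∀ j, Fin (s j) → ℚ) : ℕ :=
  ∑ j, if (r j + 1 : ℚ) < ∑ i, w j i then r j else 0

/-- The sums of the weights are at least `r j + 1`, and for all `Δ'` which are equal to `Δ` outside
of `Γ` and larger than `Δ - Γ` along `Γ` the Kodaira dimension and the numerical dimension (with
respect to any effective integral divisor `A`) of `K_X + Δ'` are `p + big`. -/
def Abundance (y : Fin (N + 1) → K) (n : ℕ) (Δ Γ : Place ℂ K → ℚ) (p : ℕ) {c : ℕ}
    (r s : Fin c → ℕ) (w : ∀ j, Fin (s j) → ℚ) : Prop :=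
  (∀ j, (r j + 1 : ℚ) ≤ ∑ i, w j i) ∧ ∀ Δ', Above y Δ Γ Δ' →
    kodairaDim y n Δ' = ((p + big r s w : ℕ) : WithBot ℕ) ∧
      ∀ A, Effective y A → Integral y A → numericalDim y n Δ' A = ((p + big r s w : ℕ) : EReal)

end

end Pool.Agent.X327.MA
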