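import Pool.Agent.X327.LcGam
import Pool.Agent.X327.MADefs

set_option autoImplicit false

open FF Pool.Agent.W602.GT Pool.Agent.Y172 Pool.Agent.Y191 Pool.Agent.X327

namespace Pool.Agent.X327.MA

theorem exists_idx {c : ℕ} (r q : Fin c → ℕ) (w : ∀ j, Fin (q j) → ℚ) :
    ∃ κ : Fin (big r q w) → Σ j, Fin (r j), Function.Injective κ ∧
      ∀ i, (r (κ i).1 + 1 : ℚ) < ∑ i', w (κ i).1 i' := by
  classical
  have h1 : Fintype.card {x : Σ j, Fin (r j) // (r x.1 + 1 : ℚ) < ∑ i, w x.1 i} = big r q w := by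
    rw [Fintype.card_subtype, Finset.card_filter, Fintype.sum_sigma]
    refine Finset.sum_congr rfl fun j _ => ?_
    change ∑ _k : Fin (r j), (if (r j + 1 : ℚ) < ∑ i, w j i then 1 else 0) = _
    rw [Finset.sum_const, Finset.card_univ, Fintype.card_fin, smul_eq_mul, mul_ite, mul_one,
      mul_zero]
  let φ := Fintype.equivFinOfCardEq h1
  exact ⟨fun i => (φ.symm i : Σ j, Fin (r j)), fun a b hab => φ.symm.injective (Subtype.ext hab),
    fun i => (φ.symm i).2⟩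

theorem good_set {K : Type} [Field K] [Algebra ℂ K] {N n : ℕ} {y : Fin (N + 1) → K}
    {Δ Γ A : Place ℂ K → ℚ} : {P | IsPrimeDivisor y P ∧ ¬ Negligible y n Δ Γ A P} =
      {P | IsPrimeDivisor y P ∧ Γ P = 0 ∧ ¬ Diminished y n Δ A P} := by
  ext P
  change (IsPrimeDivisor y P ∧ ¬ (Γ P ≠ 0 ∨ Diminished y n Δ A P)) ↔
    (IsPrimeDivisor y P ∧ Γ P = 0 ∧ ¬ Diminished y n Δ A P)
  rw [not_or, not_not]

theorem abundance_of {K : Type} [Field K] [Algebra ℂ K] {N p c : ℕ} {y : Fin (N + 1) → K}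
    {Δ Γ Am : Place ℂ K → ℚ} {r s : Fin c → ℕ} {w : ∀ j, Fin (s j) → ℚ}
    {L : IntermediateField ℂ K} (hy : IsPair y (p + ∑ j, r j) Δ)
    (hΓ : Effective y Γ) (hAm : Effective y Am)
    (hps : PseudoEffective y (p + ∑ j, r j) (Δ - Γ) Am)
    {K' : Type} [Field K'] [Algebra ℂ K']
    [Algebra K K'] [IsScalarTower ℂ K K'] [FiniteDimensional K K']
    {A : ∀ j, Fin (s j) → Fin (r j + 1) → K'}
    {u : (Σ j, Fin (r j)) → K'} (hw : ∀ j, 1 ≤ r j ∧ ∀ i, 0 ≤ w j i ∧ w j i ≤ 1)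
    (hA : LcArr (upF K' L) A w) (hu : IsTranscendenceBasis (upF K' L) u)
    (hC : Cor y (p + ∑ j, r j) Δ (upF K' L) A u w)
    (hK : (∀ j, (r j + 1 : ℚ) ≤ ∑ i, w j i) → KodairaGe (p + ∑ j, r j)
      {P | IsPrimeDivisor y P ∧ ¬ Negligible y (p + ∑ j, r j) Δ Γ Am P}
      (fun P => (Δ P : ℝ)) (p + big r s w)) : Abundance y (p + ∑ j, r j) Δ Γ p r s w := by
  rw [good_set] at hK
  obtain ⟨h1, h2⟩ := lc_gam hy.1 hy.2.1 hy.2.2 hΓ hAm hps hA.1 hu (fun j => (hw j).1)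
    (fun j i => ((hw j).2 i).1) (fun j i => ((hw j).2 i).2) hC (a := p + big r s w)
    fun h => ⟨by
      rw [add_assoc, big, ← Finset.sum_add_distrib]
      congr 1
      refine Finset.sum_congr rfl fun j _ => ?_
      rcases lt_or_eq_of_le (h j) with h3 | h3
      · rw [if_pos h3, if_neg h3.ne', add_zero]
      · rw [if_neg (not_lt.2 h3.symm.le), if_pos h3.symm, zero_add], hK h⟩
  exact ⟨h1, fun Δ' hΔ' => h2 Δ' (fun P hP => (hΔ' P hP).1) fun P hP => (hΔ' P hP).2⟩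

theorem main {v q : ℕ} (hv : 1 ≤ v) :
    (∀ d p : ℕ, 0 < d → ∀ ℓ : Fin q → Fin (v + 1) → ℂ, Independent d ℓ → GeneralPosition ℓ →
      v + 1 ≤ q → ∀ (K : Type) [Field K] [Algebra ℂ K] (N c : ℕ) (r s : Fin c → ℕ)
      (y : Fin (N + 1) → K) (Δ Γ A : Place ℂ K → ℚ), IsPair y (p + ∑ j, r j) Δ →
      Effective y Γ → Effective y A → PseudoEffective y (p + ∑ j, r j) (Δ - Γ) A →
      ∀ b : Fin (v + 1) → K, IsMap ℓ b p → ∀ wt : Fin q → ℚ, (∀ i, 0 ≤ wt i) →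
      (((p + 1) * (v - p + d).choose (v - p) : ℕ) : ℚ) < ∑ i, wt i →
      (∀ P, IsPrimeDivisor y P → ¬ Negligible y (p + ∑ j, r j) Δ Γ A P →
        ∀ (c : ℤ) (e : Fin q → ℕ), OrdData P ℓ b c e →
        ((min (Finset.univ.filter fun i => e i ≠ 0).card ((v - p + d).choose (v - p)) : ℕ) : ℚ) ≤
          ((v - p + d).choose (v - p) : ℕ) * Δ P + ∑ i, (1 - wt i) * e i) →
      ∀ w : ∀ j, Fin (s j) → ℚ, Fibres y (p + ∑ j, r j) Δ
        {P | IsPrimeDivisor y P ∧ ¬ Negligible y (p + ∑ j, r j) Δ Γ A P} (RF ℂ b) r s w →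
      Abundance y (p + ∑ j, r j) Δ Γ p r s w) ∧
    ∀ m Q : ℕ, 2 ≤ m → 2 * v * m ≤ Q * (m - 1) → (v + Q).choose v < q →
      ∃ Ψ : MvPolynomial (Fin q × Fin (v + 1)) ℂ, Ψ ≠ 0 ∧
        ∀ ℓ : Fin q → Fin (v + 1) → ℂ, MvPolynomial.eval (fun x => ℓ x.1 x.2) Ψ ≠ 0 →
        ∀ (K : Type) [Field K] [Algebra ℂ K] (N p c : ℕ) (r s : Fin c → ℕ)
        (y : Fin (N + 1) → K) (Δ Γ A : Place ℂ K → ℚ), 1 ≤ p → IsPair y (p + ∑ j, r j) Δ →
        Effective y Γ → Effective y A → PseudoEffective y (p + ∑ j, r j) (Δ - Γ) A →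
        ∀ b : Fin (v + 1) → K, IsMap ℓ b p →
        (∀ P, IsPrimeDivisor y P → ¬ Negligible y (p + ∑ j, r j) Δ Γ A P →
          ∀ (c : ℤ) (e : Fin q → ℕ), OrdData P ℓ b c e → ∀ i, e i = 0 ∨ m * (1 - Δ P) ≤ e i) →
        ∀ w : ∀ j, Fin (s j) → ℚ, Fibres y (p + ∑ j, r j) Δ
          {P | IsPrimeDivisor y P ∧ ¬ Negligible y (p + ∑ j, r j) Δ Γ A P} (RF ℂ b) r s w →
        Abundance y (p + ∑ j, r j) Δ Γ p r s w := by
  constructor
  · rintro d p hd ℓ hI hg hq K _ _ N c r s y Δ Γ Am hy hΓ hAm hps b ⟨hl, hb, htr⟩ wt hwt hlt hmult w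
      ⟨hw, K', _, _, _, _, _, A, u, hA, hu, hH, hC⟩
    refine abundance_of hy hΓ hAm hps hw hA hu hC fun hws => ?_
    obtain ⟨κ, hκ, hκs⟩ := exists_idx r s w
    refine (lc_small (δ := fun P => (Δ P : ℝ))
      (X := {P | IsPrimeDivisor y P ∧ ¬ Negligible y (p + ∑ j, r j) Δ Γ Am P}) hd hI hg hq hl hb
      htr hy.2.1 hwt hlt.le (fun P hP => by exact_mod_cast hy.2.2.1 P hP.1)
      (fun P hP _ c e ho => ?_) hA finSigmaFinEquiv hu (fun j i => ((hw j).2 i).1)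
      hws hκ hκs hH).2 hlt
    have h3 := hmult P hP.1 hP.2 c e ho
    have h4 := (Rat.cast_le (K := ℝ)).2 h3
    push_cast at h4 ⊢
    exact h4
  · intro m Q hm hQ hq
    obtain ⟨Ψ, hΨ, h⟩ := lc_general (n := v) (q' := q) hv hm hQ hq
    refine ⟨Ψ, hΨ, ?_⟩
    rintro ℓ hℓ K _ _ N p c r s y Δ Γ Am hp hy hΓ hAm hps b ⟨hl, hb, htr⟩ hmult w
      ⟨hw, K', _, _, _, _, _, A, u, hA, hu, hH, hC⟩
    refine abundance_of hy hΓ hAm hps hw hA hu hC fun hws => ?_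
    obtain ⟨κ, hκ, hκs⟩ := exists_idx r s w
    refine h ℓ hℓ K p (∑ j, r j) (big r s w) hp hy.2.1 b hl hb htr
      {P | IsPrimeDivisor y P ∧ ¬ Negligible y (p + ∑ j, r j) Δ Γ Am P}
      (fun P => (Δ P : ℝ)) (fun P hP => by exact_mod_cast hy.2.2.1 P hP.1)
      (fun P hP _ c e ho i => ?_) K' c r s A u w hA
      finSigmaFinEquiv hu (fun j i => ((hw j).2 i).1) hws κ hκ hκs hH
    rcases hmult P hP.1 hP.2 c e ho i with h1 | h1
    · exact Or.inl h1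
    · right
      have h2 := (Rat.cast_le (K := ℝ)).2 h1
      push_cast at h2 ⊢
      exact h2

end Pool.Agent.X327.MA
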