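import Pool.Agent.Y191.LcCan
import Pool.Agent.Y172.R8

/-!
The moving log canonical arrangements of `Pool.Agent.Y191` together with the enlargement of the
boundary of `Pool.Agent.Y172`: the Kodaira dimension and the numerical dimension of `K_X + Δ'` if
`K_X + Δ - Γ` is pseudo-effective and the conditions hold outside of `Γ` and of the diminished base
locus.
-/

set_option autoImplicit false
set_option linter.overlappingInstances false
set_option linter.unusedSectionVars false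

open FF MvPolynomial Pool.Agent.W602.GT Pool.Agent.W603.LV Pool.Agent.W619.PQ
open Pool.Agent.Y172 Pool.Agent.TH585.SV Pool.Agent.Y191

namespace Pool.Agent.X327

section

variable {K K' : Type} [Field K] [Field K'] [Algebra ℂ K] [Algebra ℂ K'] [Algebra K K']
  [IsScalarTower ℂ K K'] [FiniteDimensional K K'] {c : ℕ} {r q : Fin c → ℕ} {N n : ℕ}
variable {A : ∀ j, Fin (q j) → Fin (r j + 1) → K'} {u : (Σ j, Fin (r j)) → K'}
variable {L : IntermediateField ℂ K'} {y : Fin (N + 1) → K} {Δ : Place ℂ K → ℚ}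
  {w : ∀ j, Fin (q j) → ℚ}

/-- Bounds for the number of sections of `m (K_X + Δ) + A'` in given coordinates. -/
theorem lc_up (hy : NormalModel y) (hn : Algebra.trdeg ℂ K = n) (hΔ : Effective y Δ)
    (hA : AlgArr L A) (hu : IsTranscendenceBasis L u)
    (hr : ∀ j, 1 ≤ r j) (hw0 : ∀ j i, 0 ≤ w j i) (hw1 : ∀ j i, w j i ≤ 1)
    (hC : Cor y n Δ L A u w) {x : Fin n → K} {E : Fin n → Derivation ℂ K K}
    (hx : IsTranscendenceBasis ℂ x) (hE : ∀ i j, E i (x j) = if i = j then 1 else 0) {a : ℕ}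
    (hna : n = a + ∑ j, (if ∑ i, w j i = r j + 1 then r j else 0)) :
    ∀ A', Effective y A' → ∃ C : ℕ, ∀ m : ℕ, 1 ≤ m → ∀ (r : ℕ) (f : Fin r → K),
        LinearIndependent ℂ f →
        (∀ i, ∃ ω, IsSection y n m (m • Δ + A') ω ∧ ω E = f i) → r ≤ C * m ^ a := by
  classical
  have hess := hy.ess
  have hess' : Algebra.EssFiniteType ℂ K' := ess_up (K := K) hess
  have hn' : Algebra.trdeg ℂ K' = n := trdeg_up (K := K) hn
  have hfr := crd_frame' hx hE
  have hl := lmv_lc hA hu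
  obtain ⟨p, z, e, D, hF⟩ := exists_FrF hn' (acl_closed (L : Set K')) (basis_acl hu)
  obtain ⟨Sφ, hSφ⟩ := phi_reg (A := A) (u := u) (w := w)
  let ι := {j : Fin c // ∑ i, w j i = r j + 1}
  let T : Finset (Σ j, Fin (r j)) := Finset.univ.filter fun s => ∑ i, w s.1 i = r s.1 + 1
  have hT : T.card = ∑ j, (if ∑ i, w j i = r j + 1 then r j else 0) := by
    rw [Finset.card_filter, Fintype.sum_sigma]
    refine Finset.sum_congr rfl fun j _ => ?_
    change ∑ _k : Fin (r j), (if ∑ i, w j i = r j + 1 then 1 else 0) = _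
    rw [Finset.sum_const, Finset.card_univ, Fintype.card_fin, smul_eq_mul, mul_ite, mul_one,
      mul_zero]
  rw [← hT] at hna
  intro A' hA'
  refine cor_up (ι := ι) (J := fun j => Pool.Agent.Y191.blk r j.1)
    (l := fun j => ⟨j.1, ⟨0, hr j.1⟩⟩) (T := T) hy hΔ hA' hn hx hE hfr hF
    (phi_ne (w := w) hl)
    (phi_lin hl hw1) hSφ (fun P g hg hPg => lc_fin hA hl hC hg hPg)
    (fun j => by
      unfold Pool.Agent.Y191.blk
      rw [Finset.mem_filter]
      exact ⟨Finset.mem_univ _, rfl⟩)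
    (fun P => (∑ j, q j) * ∑ s, (P.ord (u s)).natAbs) (fun j P ρ hρ hP => ?_)
    (fun s hs => ?_) hna
  · obtain ⟨α, hα, h7⟩ := lc_inf hA hl hw0 hC (hr j.1) hρ hP
    refine ⟨α, hα, ?_⟩
    intro m hm
    have h8 := h7 m hm
    have h9 : ((r j.1 + 1 : ℚ) - ∑ i, w j.1 i) = 0 := by
      rw [j.2]
      ring
    rw [h9, Rat.cast_zero, zero_mul, mul_zero, add_zero] at h8
    exact h8
  · rw [Finset.mem_filter] at hs
    refine ⟨⟨s.1, hs.2⟩, ?_⟩
    unfold Pool.Agent.Y191.blk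
    rw [Finset.mem_filter]
    exact ⟨Finset.mem_univ _, rfl⟩

/-- **Abundance** relative to `Γ` for moving log canonical arrangements. -/
theorem lc_gam {Γ Am : Place ℂ K → ℚ}
    (hy : NormalModel y) (hn : Algebra.trdeg ℂ K = n) (hΔ : Effective y Δ)
    (hΓ : Effective y Γ) (hAm : Effective y Am)
    (hps : ∀ m1 : ℕ, ∃ m : ℕ, m1 ≤ m ∧ ∃ s, IsSection y n m (m • (Δ - Γ) + Am) s ∧ s ≠ 0)
    (hA : AlgArr L A) (hu : IsTranscendenceBasis L u)
    (hr : ∀ j, 1 ≤ r j) (hw0 : ∀ j i, 0 ≤ w j i) (hw1 : ∀ j i, w j i ≤ 1)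
    (hC : Cor y n Δ L A u w) {a : ℕ}
    (hK : (∀ j, (r j + 1 : ℚ) ≤ ∑ i, w j i) →
      n = a + ∑ j, (if ∑ i, w j i = r j + 1 then r j else 0) ∧
      KodairaGe n {P | IsPrimeDivisor y P ∧ Γ P = 0 ∧ ¬ Diminished y n Δ Am P}
        (fun P => (Δ P : ℝ)) a) :
    (∀ j, (r j + 1 : ℚ) ≤ ∑ i, w j i) ∧
      ∀ Δ' : Place ℂ K → ℚ, (∀ P, IsPrimeDivisor y P → Γ P = 0 → Δ' P = Δ P) →
        (∀ P, IsPrimeDivisor y P → Γ P ≠ 0 → Δ P - Γ P < Δ' P) →
        kodairaDim y n Δ' = (a : WithBot ℕ) ∧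
          ∀ A, Effective y A → Integral y A → numericalDim y n Δ' A = (a : EReal) := by
  classical
  have hws : ∀ j, (r j + 1 : ℚ) ≤ ∑ i, w j i := by
    by_contra hcon
    push Not at hcon
    obtain ⟨m0, hm0⟩ := (lc_sec hy hn hΔ hA hu hr hw0 hw1 hC).1 hcon Am hAm
    obtain ⟨m, hm, s, hs, hs0⟩ := hps m0
    refine hs0 (hm0 m hm s ⟨hs.1, fun P hP E hE => ?_⟩)
    rcases hs.2 P hP E hE with h4 | h4
    · exact Or.inl h4
    · right
      refine le_trans ?_ h4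
      have h5 := hΓ.1 P hP
      rw [Pi.add_apply, Pi.add_apply, Pi.smul_apply, Pi.smul_apply, Pi.sub_apply, nsmul_eq_mul,
        nsmul_eq_mul]
      have h6 : (0 : ℚ) ≤ (m : ℚ) := Nat.cast_nonneg _
      nlinarith [mul_nonneg h6 h5]
  refine ⟨hws, fun Δ' hΔ1 hΔ2 => ?_⟩
  obtain ⟨hna, m0, hm0, Ω, hΩ, E, h0E, hindE⟩ := hK hws
  obtain ⟨yc, Ec, hyc, hEc⟩ := exists_crd hn
  have hup := lc_up hy hn hΔ hA hu hr hw0 hw1 hC hyc hEc hna
  have hΩp : ∀ j, IsPluri m0 (Ω j) := fun j => (hΩ j).1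
  have hΩg : ∀ j P, IsPrimeDivisor y P → Γ P = 0 → ¬ Diminished y n Δ Am P →
      OrdGe P (Ω j) (-(m0 * Δ P)) := by
    intro j P hP h1 h2 G hG
    rcases (hΩ j).2 P ⟨hP, h1, h2⟩ (hP.divisorial hy hn) G hG with h6 | h6
    · exact Or.inl h6
    · right
      have h7 : ((-(m0 * Δ P) : ℚ) : ℝ) ≤ (((P.ord (Ω j G) : ℤ) : ℚ) : ℝ) := by
        push_cast
        exact h6
      exact_mod_cast h7
  have hΩ0 : ∀ j, Ω j ≠ 0 := by
    intro j h0
    have h1 : Ω j E = 0 := congrFun h0 E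
    revert h1
    refine Fin.cases ?_ (fun i => ?_) j
    · exact h0E
    · intro h1
      have := hindE.ne_zero i
      rw [h1, zero_div] at this
      exact this rfl
  obtain ⟨Γ', hΓ', h1, h2, h3⟩ := dim_enlarge hy hn hΔ hΓ hps hΩp hΩ0 hΩg
  have hz : ∀ P, IsPrimeDivisor y P → Γ' P = 0 → Γ P = 0 := by
    intro P hP h
    by_contra hcon
    rw [h1 P hP hcon] at h
    exact hcon h
  refine (transfer hy hn hyc hEc hΔ.2 hΓ' hAm h2 hup hm0 hΩp h3 h0E hindE (Δ' := Δ')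
    (fun P hP h => hΔ1 P hP (hz P hP h)) fun P hP h => ?_).2
  by_cases hΓP : Γ P = 0
  · rw [hΔ1 P hP hΓP]
    have := lt_of_le_of_ne (hΓ'.1 P hP) (Ne.symm h)
    linarith
  · rw [h1 P hP hΓP]
    exact hΔ2 P hP hΓP

end

end Pool.Agent.X327
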